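import Pool.Agent.K3h9.CR.Main
import Pool.Agent.K3h98.TW.Main

/-!
# The crystalline Tate conjecture for the smooth projective varieties generated by abelian varieties
whose factors form towers

Over an algebraic closure of the field with `p` elements each abelian variety is isogenous to the
reduction of an abelian variety of CM type (Honda, Tate). So an abelian variety over the field with
`p ^ a` elements is modelled by `RedAV`: a finite product of CM types `(E i, Φ i)` with Weil numbers
`π i ∈ E i` that satisfy the formula of Shimura and Taniyama; its cohomology of degree `n`, with
coefficients in an algebraically closed field `Ω`, consists of the alternating `n`-forms on `Ω ⊗ H_1`, on
which the Frobenius endomorphism acts by `π`.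

Let `𝒞` be the class (`IsTowerAV`, any Newton polygons) of the abelian varieties `Y` that are isogenous,
over an algebraic closure, to a product of a supersingular abelian variety of any dimension and of powers
of the factors of an abelian variety `Z` whose factors form a tower (`IsTower`): a basis (`IsBase`: factors
of total dimension at most five without exceptional pairs, or of dimension at most three, such that any
two whose CM fields have the same Galois closure have Galois CM fields, or one of them is supersingular;
the set may be empty) and then successively factors with only the trivial multiplicative relations between
their own Frobenius eigenvalues, `p` and roots of unity (`IsNeat`), whose CM field is free over the CM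
fields of the previous factors (`IsFree`). For instance products of any number of elliptic curves and of
abelian varieties whose CM fields contain no imaginary quadratic field and whose dimensions are distinct
odd prime numbers; see `TowerCriteria` in `Pool.Agent.K3h98.TW.Defs` (by helper98), where the class is
introduced; the class in the file `SlopeFields` of this folder (for abelian varieties) contains it.

`Homology Ω V` are data of motivic homology and of `ℓ`-adic homology (coefficients extended to `Ω`) of
schemes over the finite fields of characteristic `p`. Let `𝒢` be the smallest class (`Generated`) of such
schemes that contains those with the homology groups of abelian varieties in `𝒞` (`IsTowerAbelian`), and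
those for which the conjecture of Tate and Beilinson is known otherwise (`TB`; for instance all schemes of
dimension at most one, Harder, Quillen, and, by the starting files, those generated by abelian varieties of
dimension at most five, or whose factors have dimension at most two), that is closed under direct summands
of finite sums of twists of motives, and that contains all of a closed subscheme `Z` of `X`, `X` and
`X ∖ Z` if it contains two of them. It contains for example (by the starting files) all smooth projective
varieties that are dominated by a product of curves of genus at most two.

**Theorem.** Let `X` be a smooth projective scheme of pure dimension `d` over the field with `q = p ^ r`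
elements in the class `𝒢`, with its crystalline cohomology groups over the fraction field `K` of the ring
of Witt vectors (`CrysData`, `IsCup`, `IsCrys`, `KatzMessing`). Then, for all codimensions (`CrysTate`),

* the elements `x` of `H^(2 i)(X)` with `Fr x = q ^ i x` are the linear combinations of classes of
  algebraic cycles with coefficients in `K`,
* the elements `x` with `Fr_p x = p ^ i x` are the linear combinations of classes of algebraic cycles with
  coefficients in `ℚ_p` (the fixed field of the Frobenius automorphism `σ` of `K`),
* the class map `CH^i(X) ⊗ K → H^(2 i)(X)` is injective, and the eigenvalue `q ^ i` of `Fr` is semisimple.

The proof compares dimensions: the conjecture of Tate and Beilinson holds for `X`, so that the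
intersection pairing of the finite-dimensional spaces `CH^i(X) ⊗ ℚ` and `CH^(d - i)(X) ⊗ ℚ` is perfect; thus
cycles that are linearly independent modulo rational equivalence have linearly independent crystalline
classes, and their number is the multiplicity of the eigenvalue `q ^ i` in `ℓ`-adic, hence (Katz, Messing) in
crystalline cohomology.

Known theorems that are used. For crystalline cohomology: finiteness, the compatibility of cycle classes
and intersection numbers (`IsCrys`; Berthelot, Gillet, Messing), the theorem of Katz and Messing
(`KatzMessing`); for `ℓ`-adic cohomology Poincaré duality and the compatibility of the regulator with
products (`IsCup`); for abelian varieties the properties of the theory of cycles in `IsChow`, `IsMotivic`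
(Tate, Markman, Kimura, Quillen).
-/

namespace Pool.Agent.Results.MP_60ec62_ag.GeneratedVarieties

open Pool.Agent.W495.FM Pool.Agent.K3h98.TW Pool.Agent.K3h9.CR

/-- **Both forms of the crystalline Tate conjecture are true for all smooth projective schemes over finite
fields that are generated by abelian varieties whose factors form towers.** -/
theorem result (p : ℕ) [Fact p.Prime] (ν : PadicAlgCl p ≃+* ℂ) (Ω : Type) [Field Ω] [IsAlgClosed Ω]
    [CharZero Ω] (V : Type) (T : Homology Ω V) (hT : IsHomology T) (X : V)
    (hX : Generated T (fun X => IsTowerAbelian p ν T X ∨ TB T X) X)
    -- crystalline cohomology of the smooth projective scheme `X` over the field with `p ^ r` elements
    (d : ℤ) (K : Type) [Field K] [CharZero K] (D : CrysData T X d K) (r : ℕ) (σ : K ≃+* K)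
    (hD : IsCup D) (hC : IsCrys D σ) (hK : KatzMessing D r) :
    CrysTate D r σ :=
  crysTate hT (tb_generated hT (fun Z hZ => hZ.elim (fun h => tb_tower hT (.base Z h)) id) hX)
    hD hC hK

end Pool.Agent.Results.MP_60ec62_ag.GeneratedVarieties
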