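import Pool.Agent.K3h30.NS.Main
import Pool.Agent.R299.CRY2.Main

/-!
# The crystalline Tate conjecture for the abelian varieties of almost all isogeny classes in every Newton
stratum

Fix a prime `p`, a nonempty finite set `κ`, dimensions `g i ≥ 1` and, for each `i`, a symmetric Newton
polygon with slopes `s i j` and `1 - s i j` (`j < g i`), where `0 ≤ s i j ≤ 1 / 2`, whose break points
are integral and which is not the supersingular one (`IsNewton (s i)`, `s i j < 1 / 2` for some `j`). By
the theorem of Honda and Tate `Stratum g s p a` is the set of the families `(A_i)` of isogeny classes of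
abelian varieties of dimension `g i` over the field with `q = p ^ a` elements that have these Newton
polygons; it consists of the families `P` of their Frobenius polynomials.

Over an algebraic closure of the field with `p` elements each abelian variety is isogenous to the
reduction of an abelian variety of CM type (Honda, Tate). So an abelian variety over the field with
`p ^ b` elements is modelled by `RedAV`: a finite product of CM types `(E k, Φ k)` with Weil numbers
`π k ∈ E k` that satisfy the formula of Shimura and Taniyama. We fix an isomorphism `ν` of the algebraic
closure of `ℚ_p` with `ℂ`. For a family `P` let `𝒞 (P)` (`OfPolys a P`) be the class of the abelian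
varieties `Y` (over any finite extension or subfield of the field with `q` elements) each of whose factors
is supersingular or isogenous, over an algebraic closure, to a factor of one of the `A_i`: some power of
its Frobenius endomorphism `π k` is, for a complex embedding of `E k`, a power of a root `z` of some
`P i`. So `Y` is, over an algebraic closure, isogenous to a product of powers of factors of the `A_i` and
of a supersingular abelian variety.

A family `P` is good (`Holds p a P`) if both forms of the crystalline Tate conjecture are true for all
`Y` in `𝒞 (P)`, in all degrees, over all finite extensions of the ground field. This means the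
following. Let `K₀` be the fraction field of the ring of Witt vectors of the field with
`Q = (p ^ b) ^ s` elements (`p ^ b` is the number of elements of the ground field of `Y`), with its
Frobenius automorphism `σ`; let `V₀` be the dual space of the first crystalline cohomology group of `Y`
with coefficients in `K₀`, with the semilinear endomorphism `Ψ` dual to the crystalline Frobenius
endomorphism, and the linear Frobenius endomorphism `F₀ = Ψ ^ (b * s)`. The crystalline cohomology
group `H^{2m}(Y)` is the space of alternating forms `f` of degree `2 m` on `V₀`; the crystalline
Frobenius endomorphism maps `f` to `v ↦ σ (f (Ψ v))`. Over an algebraically closed field `Ω` that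
contains `K₀` the space `V₀` is identified with `Ω ⊗ H_1`, where `F₀` is the multiplication by `π ^ s`
(`IsCrystalline`; the theorem holds for all fields `K₀` with an automorphism `σ` whose power `b * s` is
trivial). Let `Cyc ⊆ H^{2m}(Y)` be the set of the classes of algebraic cycles of codimension `m` over
the field with `Q` elements. Then

* each class `f` in `H^{2m}(Y)` with `Fr f = Q ^ m f` is a linear combination of elements of `Cyc` with
  coefficients in `K₀`, and
* each class `f` that is multiplied by `p ^ m` by the crystalline Frobenius endomorphism is a linear
  combination of elements of `Cyc` with coefficients in the fixed field of `σ`, the field of `p`-adic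
  numbers.

The theorem uses of `Cyc` only that the crystalline Frobenius endomorphism multiplies its elements by
`p ^ m`, and (`ContainsAlg`) that its linear span over `K₀` contains each class `g` with
`Fr g = Q ^ m g` that belongs, over `Ω`, to the smallest system `Alg` of cohomology classes of abelian
varieties over finite fields that contains the Tate classes of degree two (which are algebraic by the
theorem of Tate; only products of these matter here) and the reductions of the Weil classes of imaginary
quadratic fields on abelian fourfolds and sixfolds of split Weil type (Markman), and that is stable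
under linear combinations, cup products, pull-backs along homomorphisms and push-forwards along
projections.

**Theorem.** As `a → ∞` the number of the families in `Stratum g s p a` tends to infinity, and the
proportion of the good families tends to one.

The proof: for almost all families in the stratum each pair `z`, `q / z` of complex conjugate Frobenius
eigenvalues of the `A_i` can be interchanged by an automorphism of `ℂ` that fixes all the other
eigenvalues of all the `A_i` (large sieve over the residue classes of the coefficients of the trace
polynomials; the existence and the counting of the families is in the starting files,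
`MP_ee618e_ag.NewtonStrata`). So there are only the trivial multiplicative relations between the
eigenvalues (`Neat`), and this determines all relations between the Frobenius eigenvalues of each `Y`
in `𝒞 (P)` (`elementary_of_neat`).
-/

set_option autoImplicit false

namespace Pool.Agent.Results.MP_60ec62_ag.NewtonStrata

open Polynomial Pool.Agent.K3h30.NS Pool.Agent.W495.TA Pool.Agent.W547.KB Pool.Agent.TH117.F5
  Pool.Agent.R299.CRY
open scoped TensorProduct

/-- Both forms of the crystalline Tate conjecture for all abelian varieties whose factors are
supersingular or factors of the abelian varieties with Frobenius polynomials `P i`. -/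
def Holds {κ : Type} (p : ℕ) [Fact p.Prime] (a : ℕ) (P : κ → ℤ[X]) : Prop :=
  ∀ (ν : PadicAlgCl p ≃+* ℂ) (Y : RedAV p ν), OfPolys a P Y → ∀ s : ℕ, 0 < s →
    ∀ (K₀ Ω V₀ : Type) [Field K₀] [CharZero K₀] [Field Ω] [IsAlgClosed Ω] [CharZero Ω]
      [Algebra K₀ Ω] [AddCommGroup V₀] [Module K₀ V₀] [FiniteDimensional K₀ V₀]
      (F₀ : V₀ →ₗ[K₀] V₀) (e : (Ω ⊗[K₀] V₀) ≃ₗ[Ω] TM Ω Y) (σ : K₀ ≃+* K₀) (Ψ : V₀ → V₀),
      IsCrystalline Y s F₀ e → IsSemilinearFrobenius (Y.a * s) σ Ψ F₀ →
        ∀ (m : ℕ) (Cyc : Set (V₀ [⋀^Fin (2 * m)]→ₗ[K₀] K₀)), (∀ c ∈ Cyc, IsFrobFixed p σ Ψ c) →
          ContainsAlg s F₀ e (Submodule.span K₀ Cyc) →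
            ∀ f : V₀ [⋀^Fin (2 * m)]→ₗ[K₀] K₀,
              (IsTateCrys F₀ ((p ^ Y.a) ^ s) m f → f ∈ Submodule.span K₀ Cyc) ∧
                (IsFrobFixed p σ Ψ f → FixedSpan σ Cyc f)

theorem holds_of {κ : Type} {p : ℕ} [Fact p.Prime] {a : ℕ} {P : κ → ℤ[X]}
    (h : ∀ (ν : PadicAlgCl p ≃+* ℂ) (Y : RedAV p ν), OfPolys a P Y → ∃ Z : RedAV p ν,
      Pool.Agent.TH117.BL.HasElementaryRelations Z ∧
        Pool.Agent.TH117.BL.IsPowersTimesSupersingular Z Y) : Holds p a P := by
  intro ν Y hY s hs K₀ Ω V₀ _ _ _ _ _ _ _ _ _ F₀ e σ Ψ he hΨ m Cyc hC hA f
  obtain ⟨Z, h1, h2⟩ := h ν Y hY
  exact Pool.Agent.R299.CRY2.main_elem h1 h2 s hs F₀ e he σ Ψ hΨ Cyc hC hA f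

/-- **Both forms of the crystalline Tate conjecture are true for the abelian varieties of almost all
isogeny classes in every Newton stratum.** -/
theorem result {κ : Type} [Fintype κ] [Nonempty κ] (p : ℕ) [Fact p.Prime]
    -- dimensions and Newton polygons
    (g : κ → ℕ) (hg : ∀ i, 1 ≤ g i) (s : ∀ i, Fin (g i) → ℚ) (hs : ∀ i, IsNewton (s i))
    (hss : ∀ i, ∃ j, s i j < 1 / 2)
    -- a number of families of isogeny classes, a proportion of exceptions
    (N : ℕ) (ε : ℝ) (hε : 0 < ε) :
    ∃ a₀ : ℕ, ∀ a, a₀ ≤ a →
      (Stratum g s p a).Finite ∧ N ≤ (Stratum g s p a).ncard ∧
      ({P ∈ Stratum g s p a | ¬ Holds p a P}.ncard : ℝ) ≤ ε * ((Stratum g s p a).ncard : ℝ) :=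
  almost_all p g hg s hs hss (Holds p) (fun _ _ h => holds_of h) N ε hε

end Pool.Agent.Results.MP_60ec62_ag.NewtonStrata
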