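import Pool.Agent.K3h98.KT.Main
import Pool.Agent.R299.CRY2.Main

/-!
# The crystalline Tate conjecture for products of abelian varieties over finite fields whose slope fields
have real intersections

Over an algebraic closure of the field with `p` elements each abelian variety is isogenous to the
reduction of an abelian variety of CM type (Honda, Tate). So an abelian variety over the field with
`p ^ a` elements is modelled by `RedAV`: a finite product of CM types `(E i, Φ i)` with Weil numbers
`π i ∈ E i` that satisfy the formula of Shimura and Taniyama; its cohomology of degree `n`, with
coefficients in an algebraically closed field `Ω`, consists of the alternating `n`-forms on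
`Ω ⊗ H_1`, on which the Frobenius endomorphism acts by `π`.

**Slope fields.** Let `Z` be an abelian variety over a finite field, with the factors `Z i`, of dimension
`g i`, and their CM fields `E i`, of degree `2 g i`. The slope (`slope`) of the Frobenius eigenvalue
`φ (π i)`, for an embedding `φ` of `E i` in `ℂ`, is its `p`-adic valuation (for the fixed place `ν`)
divided by that of the number of elements of the ground field. An automorphism `g` of `ℂ` preserves the
slopes of the factors in a set `F` (`PreservesSlopes`) if `φ` and `g ∘ φ` have the same slope for all
embeddings `φ` of their CM fields. The slope field of `F` (`slopeField`) is the field of the algebraic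
numbers which are fixed by all these automorphisms. It is contained in the compositum of all the
conjugates of the fields `E i`, `i ∈ F`, but it can be much smaller: `Z i` is of K3 type (Zarhin;
`IsK3Type`) if there is an embedding `φ₀` such that all slopes are `1 / 2`, except for those at `φ₀` and
at its complex conjugate; and then the slope field of `{i}` is contained in the field `φ₀ (E i)` itself.

**Merged sets.** We consider the sets of factors (`IsMerged`) which are obtained from

* the bases (`IsBase`): factors of total dimension at most five without exceptional pairs (`IsExc`), or
  factors of dimension at most three such that any two of them whose CM fields have the same Galois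
  closure have Galois CM fields, or one of them is supersingular; and
* the single factors `Z i` with only trivial multiplicative relations between the Frobenius eigenvalues
  of `Z i`, the prime number `p` and roots of unity (`IsNeat`)

by successive

* unions of two disjoint sets whose slope fields have a real intersection (it is contained in the field
  of real numbers), and
* adjunctions of a factor `Z i` with only trivial relations whose CM field is free over those of the
  factors in the given set (`IsFree`): there is no nonzero rational function on the set of the complex
  embeddings of `E i` which is odd (it changes its sign under complex conjugation) and invariant under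
  all automorphisms of `ℂ` that are the identity on all conjugates of these CM fields.

The second part of the theorem (`SlopeCriteria`) gives criteria.

* Let all factors in `F` be of K3 type. If `K` is a subfield of `ℂ` that contains the fields `φ₀ (E i)`,
  `i ∈ F`, then it contains the slope field of `F`.
* A factor of K3 type, of any dimension, with any CM field, has only trivial relations (Zarhin).
* Let all proper subfields of `E i` be totally real, and let there be a dominant slope
  (`IsDominant`): `|s (φ₀) - 1/2| > 0` is at least the sum of the numbers `|s (φ) - 1/2|` over the other
  pairs of complex conjugate embeddings `φ`. Then `Z i` has only trivial relations. For instance all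
  slopes are `1 / 2`, except for `0` and `1`, both of multiplicity one or both of multiplicity two; or
  the slopes are `0` and `1`, of multiplicity one, `(n - 1) / (2 n)` and `(n + 1) / (2 n)`, of
  multiplicity `n`, with an odd number `n`, and `1 / 2`.
* Two factors of K3 type whose CM fields have only totally real proper subfields form a merged set if
  the images of these fields under the distinguished embeddings are different (for instance, if the
  fields are not isomorphic; they may have the same Galois closure).
* Let `Z i` be a factor that is not supersingular, whose dimension is an odd prime number `q`, and let
  `E i` contain no imaginary quadratic field. Then it can be adjoined to each merged set of factors of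
  dimensions less than `q`.

Let `𝒞` (`IsMergedAV`) be the class of the abelian varieties `Y` that are isogenous, over an algebraic
closure, to a product of a supersingular abelian variety of any dimension and of powers, with any
exponents, of the factors of some `Z` all of whose factors form a merged set. For example `𝒞` contains
all products of powers of the factors of `Z_0 × A_1 × ... × A_r`, where `Z_0` has dimension at most five
and no exceptional pair of factors, and the `A_k` are absolutely simple of prime dimensions
`5 < q_1 < ... < q_r`, with CM fields that contain no imaginary quadratic field; and all products of
powers of two abelian varieties of K3 type as above.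

**Theorem.** Both forms of the crystalline Tate conjecture are true for all `Y` in `𝒞`, in all degrees,
over all finite extensions of the ground field. This means the following. Let `K₀` be the fraction field
of the ring of Witt vectors of the field with `Q = (p ^ a) ^ s` elements, with its Frobenius
automorphism `σ`; let `V₀` be the dual space of the first crystalline cohomology group of `Y` with
coefficients in `K₀`, with the semilinear endomorphism `Ψ` dual to the crystalline Frobenius
endomorphism, and the linear Frobenius endomorphism `F₀ = Ψ ^ (a * s)`. The crystalline cohomology group
`H^{2m}(Y)` is the space of alternating forms `f` of degree `2 m` on `V₀`; the crystalline Frobenius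
endomorphism maps `f` to `v ↦ σ (f (Ψ v))`. Over an algebraically closed field `Ω` that contains `K₀` the
space `V₀` is identified with `Ω ⊗ H_1`, where `F₀` is the multiplication by `π ^ s` (`IsCrystalline`;
the theorem holds for all fields `K₀` with an automorphism `σ` whose power `a * s` is trivial). Let
`Cyc ⊆ H^{2m}(Y)` be the set of the classes of algebraic cycles of codimension `m` over the field with
`Q` elements. Then

* each class `f` in `H^{2m}(Y)` with `Fr f = Q ^ m f` is a linear combination of elements of `Cyc` with
  coefficients in `K₀`, and
* each class `f` that is multiplied by `p ^ m` by the crystalline Frobenius endomorphism is a linear
  combination of elements of `Cyc` with coefficients in the fixed field of `σ`, the field of `p`-adic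
  numbers.

The theorem uses of `Cyc` only that the crystalline Frobenius endomorphism multiplies its elements by
`p ^ m`, and (`ContainsAlg`) that its linear span over `K₀` contains each class `g` with
`Fr g = Q ^ m g` that belongs, over `Ω`, to the smallest system `Alg` of cohomology classes of abelian
varieties over finite fields that contains the Tate classes of degree two (which are algebraic by the
theorem of Tate) and the reductions of the Weil classes of imaginary quadratic fields on abelian
fourfolds and sixfolds of split Weil type (Markman), and that is stable under linear combinations, cup
products, pull-backs along homomorphisms and push-forwards along projections.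

The proof. Let `F`, `F'` be two disjoint sets whose slope fields have a real intersection, and let `n w`
be the exponents of a relation between the eigenvalues `w` of the factors in `F ∪ F'`. With
`s (w) = slope (w) - 1/2`, each automorphism `τ` of `ℂ` gives `P (τ) + P' (τ) = 0`, where `P (τ)` is the
sum of `n (τ w) s (w)` over the eigenvalues `w` for `F`, and `P' (τ)` that for `F'`. Now `P` does not
change if we multiply `τ` from the right by an automorphism that preserves the slopes of `F`, and
`P' = - P` does not change if the slopes of `F'` are preserved. By Galois theory the complex conjugation
of a large Galois CM field is induced by an element of the group generated by these automorphisms, since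
the intersection of the slope fields is real. It changes the sign of `P`. So `P = 0`, and the
part of the relation that belongs to `F` is a relation itself (Kronecker). For a dominant slope `s₀` at
`φ₀`, and the odd part `m` of the exponents, the sum of the nonnegative numbers
`|s (φ)| (m (τ φ) ± m (τ φ₀)) ^ 2` over `τ` (in a finite Galois group) and the other `φ` is
`2 W (∑ |s (φ)| - 2 |s₀|) ≤ 0`, where `W` is the sum of the numbers `m (τ φ₀) ^ 2`; so `m` takes the same
value at `τ φ₀` and at `τ φ₁`, for all `τ` and some `φ₁ ≠ φ₀`. The subfield of `E i` on which `φ₀` and
`φ₁` agree is real, and again by Galois theory `m = - m`. For a free factor `Z i` and an automorphism `σ`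
of `ℂ` that fixes the conjugates of the earlier CM fields a relation `R` gives the relation `σ (R) / R`,
in which only the eigenvalues of `Z i` occur; it is trivial. So the odd part of the exponents of `R` at
`Z i` is invariant under these automorphisms, and vanishes. For the fields of degree `2 q`, an
automorphism of order `q` of the Galois closure has two orbits of length `q` on the embeddings, and then
a rational function with vanishing correlations with a nonconstant one on such an orbit is constant (the
`q`-th cyclotomic polynomial is irreducible); this gives an odd function with the values `1` and `-1`
which the Galois group changes only by a sign, that is, an imaginary quadratic subfield.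

That the Tate classes belong to `Alg` if the relations between the Frobenius eigenvalues are generated by
elementary ones (`HasElementaryRelations`) is a theorem of the starting files
(`MP_ee618e_ag.ElementaryRelations`). The starting file `PowersOfFactors` is the case of a basis. For the
powers of one abelian variety of K3 type the Tate conjecture is a theorem of Zarhin, for one simple
abelian variety of prime dimension it is a theorem of Tankeev; see also Lenstra and Zarhin.
-/

set_option autoImplicit false

namespace Pool.Agent.Results.MP_60ec62_ag.SlopeFields

open Pool.Agent.W495.TA Pool.Agent.W547.KB Pool.Agent.TH117.F5 Pool.Agent.R299.CRY
  Pool.Agent.K3h98.KT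
open scoped TensorProduct

/-- **The crystalline Tate conjecture for all abelian varieties that are, over an algebraic closure,
isogenous to a product of a supersingular abelian variety and of powers of the factors of an abelian
variety whose factors form a merged set; and criteria.** -/
theorem result :
    (∀ (p : ℕ) [Fact p.Prime] (ν : PadicAlgCl p ≃+* ℂ) (Y : RedAV p ν), IsMergedAV Y →
      ∀ s : ℕ, 0 < s →
      ∀ (K₀ Ω V₀ : Type) [Field K₀] [CharZero K₀] [Field Ω] [IsAlgClosed Ω] [CharZero Ω]
        [Algebra K₀ Ω] [AddCommGroup V₀] [Module K₀ V₀] [FiniteDimensional K₀ V₀]
        (F₀ : V₀ →ₗ[K₀] V₀) (e : (Ω ⊗[K₀] V₀) ≃ₗ[Ω] TM Ω Y) (σ : K₀ ≃+* K₀) (Ψ : V₀ → V₀),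
        IsCrystalline Y s F₀ e → IsSemilinearFrobenius (Y.a * s) σ Ψ F₀ →
          ∀ (m : ℕ) (Cyc : Set (V₀ [⋀^Fin (2 * m)]→ₗ[K₀] K₀)), (∀ c ∈ Cyc, IsFrobFixed p σ Ψ c) →
            ContainsAlg s F₀ e (Submodule.span K₀ Cyc) →
              ∀ f : V₀ [⋀^Fin (2 * m)]→ₗ[K₀] K₀,
                (IsTateCrys F₀ ((p ^ Y.a) ^ s) m f → f ∈ Submodule.span K₀ Cyc) ∧
                  (IsFrobFixed p σ Ψ f → FixedSpan σ Cyc f)) ∧
    SlopeCriteria := by
  refine ⟨?_, slope_criteria⟩
  intro p _ ν Y hY s hs K₀ Ω V₀ _ _ _ _ _ _ _ _ _ F₀ e σ Ψ he hΨ m Cyc hC hA f
  obtain ⟨Z, h1, h2⟩ := elem_of_mergedAV hY
  exact Pool.Agent.R299.CRY2.main_elem h1 h2 s hs F₀ e he σ Ψ hΨ Cyc hC hA f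

end Pool.Agent.Results.MP_60ec62_ag.SlopeFields
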